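import Mathlib
import Pool.Agent.TH603.Cut.Main
import Pool.Agent.TH603.Sur.Uni

set_option autoImplicit false

/-!
# Hilbert functions of `r = D t ^ 2` general fat points of multiplicity `m` in the plane

For every `D ≥ 1` and every `ε > 0` there is `t0` such that for `r = D t ^ 2`, `t ≥ t0`, every
`m ≥ 1` and every `d` with `|2 d + 3 - √r (2 m + 1)| ≥ ε`:
`H_{2,r,m}(d) = min (binom (d + 2) 2) (r binom (m + 1) 2)`.
-/

namespace Pool.Agent.Results.MP_b56c98_ag.PlaneSquareClasses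

open MvPolynomial

/-- The symbolic power `I_Y ^ (m)` of the ideal of the points `(Y i 0 : Y i 1 : 1)` with multiplicity `m`. -/
noncomputable def fat {r : ℕ} (Y : Fin r → Fin 2 → ℂ) (m : ℕ) : Ideal (MvPolynomial (Fin 3) ℂ) :=
  ⨅ i : Fin r, (Ideal.span ({X 0 - C (Y i 0) * X 2, X 1 - C (Y i 1) * X 2} :
    Set (MvPolynomial (Fin 3) ℂ))) ^ m

/-- The Hilbert function `H_{R/J}(d) = dim R_d - dim J_d`. -/
noncomputable def hilb (J : Ideal (MvPolynomial (Fin 3) ℂ)) (d : ℕ) : ℕ :=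
  Module.finrank ℂ ↥(homogeneousSubmodule (Fin 3) ℂ d) -
    Module.finrank ℂ ↥(homogeneousSubmodule (Fin 3) ℂ d ⊓ Submodule.restrictScalars ℂ J)

theorem result (D : ℕ) (hD : 1 ≤ D) (ε : ℝ) (hε : 0 < ε) : ∃ t0 : ℕ, ∀ t : ℕ, t0 ≤ t →
    ∀ r : ℕ, r = D * t ^ 2 → ∀ m : ℕ, 1 ≤ m → ∃ F : MvPolynomial (Fin r × Fin 2) ℂ, F ≠ 0 ∧
      ∀ Y : Fin r → Fin 2 → ℂ,
        MvPolynomial.eval (fun ij : Fin r × Fin 2 => Y ij.1 ij.2) F ≠ 0 →
        ∀ d : ℕ, ε ≤ |2 * (d : ℝ) + 3 - Real.sqrt r * (2 * m + 1)| →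
          hilb (fat Y m) d = min ((d + 2).choose 2) (r * (m + 1).choose 2) := by
  obtain ⟨t0, h⟩ := TH603.Cut.expDim_uni hD hε
  refine ⟨t0, fun t ht r hr m hm => ?_⟩
  obtain ⟨F, hF, hF'⟩ := h t ht r hr m hm (L := ℂ)
  refine ⟨F.map (algebraMap ℚ ℂ), Pool.Agent.H932R3.map_ne_zero_of hF, fun Y hY d hd => ?_⟩
  rw [MvPolynomial.eval_map] at hY
  have h2 := hF' Y hY d hd
  unfold Pool.Agent.H932R3.ExpDim at h2
  rw [Finset.sum_const, Finset.card_univ, Fintype.card_fin, smul_eq_mul] at h2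
  unfold hilb fat
  rw [h2, TH603.Sur.finrank_forms]
  omega

end Pool.Agent.Results.MP_b56c98_ag.PlaneSquareClasses
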